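import Pool.Agent.Helper80.MM.Stm

/-!
Project MM, package STEP (helper33): a generic further number.
-/

set_option autoImplicit false

open MvPolynomial MeasureTheory

namespace Pool.Agent.Helper33.MM

open Pool.Agent.Helper80.MM

/-- substitution of the first variables, the last one stays -/
noncomputable def sp {N : ℕ} (x : Fin N → ℝ) (P : MvPolynomial (Fin (N + 1)) ℤ) :
    Polynomial ℝ :=
  Polynomial.map (aeval x : MvPolynomial (Fin N) ℤ →ₐ[ℤ] ℝ).toRingHom
    (finSuccEquiv ℤ N (rename (finRotate (N + 1)) P))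

theorem eval_sp {N : ℕ} (x : Fin N → ℝ) (y : ℝ) (P : MvPolynomial (Fin (N + 1)) ℤ) :
    (sp x P).eval y = aeval (Fin.snoc (α := fun _ => ℝ) x y) P := by
  have h1 : ∀ Q : MvPolynomial (Fin (N + 1)) ℤ,
      Polynomial.eval₂ (aeval x : MvPolynomial (Fin N) ℤ →ₐ[ℤ] ℝ).toRingHom y
        (finSuccEquiv ℤ N Q) = aeval (Fin.cons y x : Fin (N + 1) → ℝ) Q := by
    intro Q
    have h2 : (Polynomial.eval₂RingHom (aeval x : MvPolynomial (Fin N) ℤ →ₐ[ℤ] ℝ).toRingHom
        y).comp (finSuccEquiv ℤ N).toAlgHom.toRingHom =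
        (aeval (Fin.cons y x : Fin (N + 1) → ℝ) : MvPolynomial (Fin (N + 1)) ℤ →ₐ[ℤ] ℝ).toRingHom := by
      apply MvPolynomial.ringHom_ext
      · intro r
        simp
      · intro i
        refine Fin.cases ?_ (fun j => ?_) i
        · show Polynomial.eval₂ _ y (finSuccEquiv ℤ N (X 0)) = aeval _ (X 0)
          rw [finSuccEquiv_X_zero, Polynomial.eval₂_X, aeval_X, Fin.cons_zero]
        · show Polynomial.eval₂ _ y (finSuccEquiv ℤ N (X j.succ)) = aeval _ (X j.succ)
          rw [finSuccEquiv_X_succ, Polynomial.eval₂_C, aeval_X, Fin.cons_succ]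
          exact aeval_X x j
    exact congrArg (fun f => f Q) h2
  unfold sp
  rw [Polynomial.eval_map, h1, aeval_rename, Fin.snoc_eq_cons_rotate]
  rfl

theorem coeff_sp {N : ℕ} (x : Fin N → ℝ) (P : MvPolynomial (Fin (N + 1)) ℤ) (k : ℕ) :
    (sp x P).coeff k =
      aeval x ((finSuccEquiv ℤ N (rename (finRotate (N + 1)) P)).coeff k) := by
  unfold sp
  rw [Polynomial.coeff_map]
  rfl

theorem natDegree_sp {N : ℕ} (x : Fin N → ℝ) (P : MvPolynomial (Fin (N + 1)) ℤ) :
    (sp x P).natDegree ≤ P.totalDegree := by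
  unfold sp
  refine Polynomial.natDegree_map_le.trans ?_
  rw [natDegree_finSuccEquiv]
  exact (degreeOf_le_totalDegree _ _).trans (totalDegree_rename_le _ _)

/-- a large coefficient -/
theorem exists_coeff {N D C H : ℕ} (x : Fin N → ℝ)
    (hC : ∀ P : MvPolynomial (Fin N) ℤ, P ≠ 0 → P.totalDegree ≤ D →
      (∀ m, |P.coeff m| ≤ (H : ℤ)) → 1 ≤ |aeval x P| * (H : ℝ) ^ C)
    (P : MvPolynomial (Fin (N + 1)) ℤ) (hP : P ≠ 0) (hD : P.totalDegree ≤ D)
    (hH : ∀ m, |P.coeff m| ≤ (H : ℤ)) : ∃ k, 1 ≤ |(sp x P).coeff k| * (H : ℝ) ^ C := by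
  set σ := finRotate (N + 1) with hσ
  have h0 : finSuccEquiv ℤ N (rename σ P) ≠ 0 := by
    intro h
    apply hP
    apply rename_injective σ σ.injective
    rw [map_zero]
    apply (finSuccEquiv ℤ N).injective
    rw [h, map_zero]
  obtain ⟨k, hk⟩ : ∃ k, (finSuccEquiv ℤ N (rename σ P)).coeff k ≠ 0 := by
    by_contra hcon
    push Not at hcon
    exact h0 (Polynomial.ext fun k => by rw [hcon k, Polynomial.coeff_zero])
  refine ⟨k, ?_⟩
  rw [coeff_sp, ← hσ]
  refine hC _ hk ?_ ?_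
  · have h1 := totalDegree_coeff_finSuccEquiv_add_le (rename σ P) k hk
    have h2 := totalDegree_rename_le σ P
    omega
  · intro m
    rw [finSuccEquiv_coeff_coeff]
    have h3 : m.cons k = ((m.cons k).mapDomain σ.symm).mapDomain σ := by
      rw [← Finsupp.mapDomain_comp, σ.self_comp_symm, Finsupp.mapDomain_id]
    rw [h3, coeff_rename_mapDomain σ σ.injective]
    exact hH _

/-- the polynomials of bounded degree and height -/
def PP (n D H : ℕ) : Set (MvPolynomial (Fin n) ℤ) :=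
  {P | P ≠ 0 ∧ P.totalDegree ≤ D ∧ ∀ m, |P.coeff m| ≤ (H : ℤ)}

open Classical in
theorem PP_count (n D : ℕ) : ∃ M : ℕ, ∀ H : ℕ, (PP n D H).Finite ∧
    (PP n D H).ncard ≤ (2 * H + 1) ^ M := by
  set b : Fin n →₀ ℕ := Finsupp.equivFunOnFinite.symm fun _ => D with hb
  refine ⟨Fintype.card (Finset.Iic b), fun H => ?_⟩
  set A : Finset (Finset.Iic b → ℤ) :=
    Fintype.piFinset fun _ => Finset.Icc (-(H : ℤ)) H with hA
  have hmaps : ∀ P ∈ PP n D H, (fun m : Finset.Iic b => P.coeff (m : Fin n →₀ ℕ)) ∈ (A : Set _) := by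
    intro P hP
    rw [Finset.mem_coe, hA, Fintype.mem_piFinset]
    intro m
    rw [Finset.mem_Icc]
    exact abs_le.mp (hP.2.2 _)
  have hinj : Set.InjOn (fun (P : MvPolynomial (Fin n) ℤ) (m : Finset.Iic b) =>
      P.coeff (m : Fin n →₀ ℕ)) (PP n D H) := by
    intro P hP Q hQ hPQ
    ext m
    by_cases hm : m ∈ Finset.Iic b
    · exact congrFun hPQ ⟨m, hm⟩
    · have hgt : ∀ R : MvPolynomial (Fin n) ℤ, R ∈ PP n D H → R.coeff m = 0 := by
        intro R hR
        by_contra hne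
        apply hm
        rw [Finset.mem_Iic, Finsupp.le_def]
        intro i
        have h1 := le_totalDegree (mem_support_iff.mpr hne)
        have h2 : m i ≤ m.sum fun _ e => e := by
          by_cases hi : i ∈ m.support
          · exact Finset.single_le_sum (f := fun j => m j) (fun _ _ => Nat.zero_le _) hi
          · rw [Finsupp.notMem_support_iff.mp hi]
            exact Nat.zero_le _
        exact (h2.trans h1).trans hR.2.1
      rw [hgt P hP, hgt Q hQ]
  have hcard : (A : Set (Finset.Iic b → ℤ)).ncard = (2 * H + 1) ^ Fintype.card (Finset.Iic b) := by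
    rw [Set.ncard_coe_finset, hA, Fintype.card_piFinset]
    simp only [Int.card_Icc, Finset.prod_const, Finset.card_univ]
    congr 1
    omega
  exact ⟨Set.Finite.of_injOn hmaps hinj A.finite_toSet,
    (Set.ncard_le_ncard_of_injOn _ hmaps hinj A.finite_toSet).trans hcard.le⟩

theorem step : S_STEP := by
  intro hM D N x hx
  obtain ⟨C, hC⟩ := hx
  obtain ⟨M, hcount⟩ := PP_count (N + 1) D
  obtain ⟨C', hC'⟩ := hM D M C (fun H => sp x '' PP (N + 1) D H) (by
    intro H hH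
    refine ⟨(hcount H).1.image _, (Set.ncard_image_le (hcount H).1).trans (hcount H).2, ?_⟩
    rintro _ ⟨P, hP, rfl⟩
    exact ⟨(natDegree_sp x P).trans hP.2.1,
      exists_coeff x (hC H hH) P hP.1 hP.2.1 hP.2.2⟩)
  filter_upwards [hC'] with y hy
  obtain ⟨H0, hH0⟩ := hy
  set H1 := max H0 2 with hH1
  refine ⟨H1 * C' + C', fun H hH P hP hD hh => ?_⟩
  have hH' : (1 : ℝ) ≤ H := by
    have : (2 : ℝ) ≤ H := by exact_mod_cast hH
    linarith
  rw [← eval_sp]
  by_cases hle : H0 ≤ H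
  · refine (hH0 H hle hH _ ⟨P, ⟨hP, hD, hh⟩, rfl⟩).trans ?_
    exact mul_le_mul_of_nonneg_left (pow_le_pow_right₀ hH' (Nat.le_add_left _ _)) (abs_nonneg _)
  · have h1 : P ∈ PP (N + 1) D H1 := ⟨hP, hD, fun m => (hh m).trans (by
      have : H ≤ H1 := by omega
      exact_mod_cast this)⟩
    refine (hH0 H1 (le_max_left _ _) (le_max_right _ _) _ ⟨P, h1, rfl⟩).trans ?_
    refine mul_le_mul_of_nonneg_left ?_ (abs_nonneg _)
    have h2 : (H1 : ℝ) ≤ (H : ℝ) ^ H1 := by
      have h3 : H1 ≤ H ^ H1 := (Nat.lt_pow_self (by omega)).le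
      exact_mod_cast h3
    calc (H1 : ℝ) ^ C' ≤ ((H : ℝ) ^ H1) ^ C' := pow_le_pow_left₀ (Nat.cast_nonneg _) h2 _
      _ = (H : ℝ) ^ (H1 * C') := (pow_mul _ _ _).symm
      _ ≤ (H : ℝ) ^ (H1 * C' + C') := pow_le_pow_right₀ hH' (Nat.le_add_right _ _)

end Pool.Agent.Helper33.MM
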